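import Pool.Agent.Q264.RP2

/-!
# The summability criterion for normality of random polynomial images fails for every degree `d ≥ 3`

`p n = 1/2` for `n` in the blocks `[(8d)^t, 2 (8d)^t]`, `t = 0, 1, ...`, and `p n = n^(-3/2) / 2` for
the other `n`. Then `R_d(s) ≥ κ √s` for large `s`, so that the series of the criterion converges for
every `c > 0`; but almost surely `ξ_n = 1` for only finitely many `n` outside the blocks, and then
`X^d` has only zeros among its binary digits number `2d (8d)^t + 1` to `(8d)^(t+1) - d - 2`, for every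
large `t`.
-/

set_option autoImplicit false

namespace Pool.Agent.Results.MP_28bf3c_nt.SummabilityCriterion

open MeasureTheory ProbabilityTheory Filter Topology

/-- the digit number `n + 1` of (the fractional part of) `y` in base `b` -/
noncomputable def digit (b : ℕ) (y : ℝ) (n : ℕ) : ℤ := ⌊(b : ℝ) ^ (n + 1) * y⌋ % (b : ℤ)

/-- `y` is normal in base `b`: every word of length `k ≥ 1` has frequency `b^(-k)` -/
def NormalBase (b : ℕ) (y : ℝ) : Prop :=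
  ∀ k : ℕ, 1 ≤ k → ∀ w : Fin k → ℕ, (∀ i, w i < b) →
    Tendsto (fun N : ℕ =>
      (Nat.card {n : ℕ // n < N ∧ ∀ i : Fin k, digit b y (n + i) = w i} : ℝ) / N)
      atTop (𝓝 (1 / (b : ℝ) ^ k))

/-- absolutely normal -/
def AbsNormal (y : ℝ) : Prop := ∀ b : ℕ, 2 ≤ b → NormalBase b y

/-- the number `X` with the binary digits `x 1, x 2, ...` -/
noncomputable def X (x : ℕ → Bool) : ℝ :=
  ∑' n : ℕ, (if x (n + 1) then (1 : ℝ) else 0) / 2 ^ (n + 1)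

/-- `R_d(s)` with `v_i = p_i (1 - p_i)`; a strictly increasing tuple is a `d`-element set -/
noncomputable def R (p : ℕ → ℝ) (d s : ℕ) : ℝ :=
  ∑ I ∈ ((Finset.Icc 1 s).powersetCard d).filter (fun I => ∑ i ∈ I, i = s),
    ∏ i ∈ I, p i * (1 - p i)

/-- `ξ` are independent bits with `ℙ(ξ_n = 1) = p_n` -/
def IsBits (p : ℕ → ℝ) (Ω : Type) [MeasurableSpace Ω] (μ : Measure Ω) (ξ : ℕ → Ω → Bool) : Prop :=
  (∀ n, Measurable (ξ n)) ∧ iIndepFun ξ μ ∧ ∀ n, μ (ξ n ⁻¹' {true}) = ENNReal.ofReal (p n)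

/-- the criterion of Q1 for the degree `d` -/
def Criterion (d : ℕ) : Prop :=
  ∃ c : ℝ, 0 < c ∧ ∀ p : ℕ → ℝ, (∀ n, 0 ≤ p n ∧ p n ≤ 1) →
    ∀ P : Polynomial ℝ, P.natDegree = d →
      Summable (fun s : ℕ => (s : ℝ) * Real.exp (-(c * R p d s))) →
        ∀ (Ω : Type) [MeasurableSpace Ω] (μ : Measure Ω) [IsProbabilityMeasure μ]
          (ξ : ℕ → Ω → Bool), IsBits p Ω μ ξ →
            ∀ᵐ ω ∂μ, AbsNormal (P.eval (X (fun n => ξ n ω)))

theorem result :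
    (∀ d : ℕ, 3 ≤ d → ∃ p : ℕ → ℝ, (∀ n, 0 ≤ p n ∧ p n ≤ 1) ∧
      (∀ c : ℝ, 0 < c → Summable (fun s : ℕ => (s : ℝ) * Real.exp (-(c * R p d s)))) ∧
      ∀ (Ω : Type) [MeasurableSpace Ω] (μ : Measure Ω) [IsProbabilityMeasure μ]
        (ξ : ℕ → Ω → Bool), IsBits p Ω μ ξ →
          ∀ᵐ ω ∂μ, ¬ NormalBase 2 (X (fun n => ξ n ω) ^ d)) ∧
    (∀ d : ℕ, 3 ≤ d → ¬ Criterion d) ∧
    ¬ ∀ d : ℕ, 2 ≤ d → Criterion d := by
  have key : ∀ d : ℕ, 3 ≤ d → (∀ n, 0 ≤ Q264.RP.pp d n ∧ Q264.RP.pp d n ≤ 1) ∧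
      (∀ c : ℝ, 0 < c → Summable (fun s : ℕ => (s : ℝ) * Real.exp (-(c * R (Q264.RP.pp d) d s)))) ∧
      ∀ (Ω : Type) [MeasurableSpace Ω] (μ : Measure Ω) [IsProbabilityMeasure μ]
        (ξ : ℕ → Ω → Bool), IsBits (Q264.RP.pp d) Ω μ ξ →
          ∀ᵐ ω ∂μ, ¬ NormalBase 2 (X (fun n => ξ n ω) ^ d) := by
    intro d hd
    refine ⟨fun n => ?_, fun c hc => Q264.RP.summ_R hd hc, ?_⟩
    · have := Q264.RP.pp_bd d n
      exact ⟨this.1, by linarith⟩
    · intro Ω _ μ _ ξ h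
      exact Q264.RP.ae_not_normal (by omega) μ ξ h.2.2
  have key2 : ∀ d : ℕ, 3 ≤ d → ¬ Criterion d := by
    rintro d hd ⟨c, hc, h⟩
    obtain ⟨h1, h2, h3⟩ := key d hd
    obtain ⟨μ, hμ, hi, hl⟩ := Q264.RP.exists_bits _ h1
    have hb : IsBits (Q264.RP.pp d) (ℕ → Bool) μ (fun n ω => ω n) :=
      ⟨fun n => measurable_pi_apply n, hi, hl⟩
    have h4 := h _ h1 (Polynomial.X ^ d) (Polynomial.natDegree_X_pow d) (h2 c hc) _ μ _ hb
    have h5 := h3 _ μ _ hb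
    obtain ⟨ω, hω1, hω2⟩ := (h4.and h5).exists
    apply hω2
    have := hω1 2 le_rfl
    rwa [Polynomial.eval_pow, Polynomial.eval_X] at this
  exact ⟨fun d hd => ⟨_, key d hd⟩, key2, fun h => key2 3 le_rfl (h 3 (by norm_num))⟩

end Pool.Agent.Results.MP_28bf3c_nt.SummabilityCriterion
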